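import Pool.Agent.H947R2.TP.Stubs

/-!
# B4: Hajós' theorem for rational lattices (from the integer version A6)
-/

open MeasureTheory Filter Topology Set
open scoped ENNReal

namespace H947TP

namespace B4aux

/-- a common denominator of finitely many rational vectors -/
theorem exists_den {D : ℕ} (S : Finset (Fin D → ℝ)) (h : ∀ v ∈ S, ∀ i, ∃ r : ℚ, v i = (r : ℝ)) :
    ∃ N : ℕ, 2 ≤ N ∧ ∀ v ∈ S, ∀ i, ∃ z : ℤ, (N : ℝ) * v i = z := by
  classical
  have h' : ∀ v : Fin D → ℝ, ∀ i, ∃ r : ℚ, v ∈ S → v i = (r : ℝ) := by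
    intro v i
    by_cases hv : v ∈ S
    · obtain ⟨r, hr⟩ := h v hv i
      exact ⟨r, fun _ => hr⟩
    · exact ⟨0, fun hv' => absurd hv' hv⟩
  choose r hr using h'
  set P : ℕ := ∏ p ∈ S ×ˢ (Finset.univ : Finset (Fin D)), (r p.1 p.2).den with hP
  have hP1 : 1 ≤ P := by
    rw [hP]
    exact Finset.one_le_prod' fun p _ => (r p.1 p.2).pos
  refine ⟨2 * P, by omega, fun v hv i => ?_⟩
  have hd : (r v i).den ∣ 2 * P := by
    refine Dvd.dvd.mul_left ?_ 2
    have hmem : (v, i) ∈ S ×ˢ (Finset.univ : Finset (Fin D)) :=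
      Finset.mem_product.2 ⟨hv, Finset.mem_univ i⟩
    exact Finset.dvd_prod_of_mem (fun p : (Fin D → ℝ) × Fin D => (r p.1 p.2).den) hmem
  obtain ⟨m, hm⟩ := hd
  refine ⟨(m : ℤ) * (r v i).num, ?_⟩
  rw [hr v i hv, hm]
  have e : ((r v i : ℚ) : ℝ) * ((r v i).den : ℝ) = ((r v i).num : ℝ) := by
    have := Rat.mul_den_eq_num (r v i)
    exact_mod_cast this
  push_cast
  rw [← e]
  ring

/-- the map `z ↦ z / N` -/
noncomputable def scl (D N : ℕ) : (Fin D → ℤ) →+ (Fin D → ℝ) where
  toFun z i := (z i : ℝ) / N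
  map_zero' := by ext i; simp
  map_add' z w := by ext i; simp [add_div]

theorem scl_apply {D N : ℕ} (z : Fin D → ℤ) (i : Fin D) : scl D N z i = (z i : ℝ) / N := rfl

end B4aux

open B4aux in
theorem B4 (hA : St_A6) : St_B4 := by
  classical
  intro D L hD hL hfg hrat
  obtain ⟨S, hS⟩ := hfg
  have hSL : ∀ v ∈ S, v ∈ L := by
    intro v hv
    rw [← hS]
    exact AddSubgroup.subset_closure hv
  obtain ⟨N, hN, hint⟩ := exists_den S (fun v hv i => hrat v (hSL v hv) i)
  have hN0 : (0 : ℝ) < N := by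
    have : 0 < N := by omega
    exact_mod_cast this
  have hall : ∀ v ∈ L, ∀ i, ∃ z : ℤ, (N : ℝ) * v i = z := by
    intro v hv
    rw [← hS] at hv
    induction hv using AddSubgroup.closure_induction with
    | mem x hx => exact hint x hx
    | zero => intro i; exact ⟨0, by simp⟩
    | add x y _ _ hx hy =>
      intro i
      obtain ⟨a, ha⟩ := hx i
      obtain ⟨b, hb⟩ := hy i
      exact ⟨a + b, by rw [Pi.add_apply, mul_add, ha, hb]; push_cast; ring⟩
    | neg x _ hx =>
      intro i
      obtain ⟨a, ha⟩ := hx i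
      exact ⟨-a, by rw [Pi.neg_apply, mul_neg, ha]; push_cast; ring⟩
  have htile : ∀ x : Fin D → ℤ, ∃! v, v ∈ L.comap (scl D N) ∧ ∀ i, v i ≤ x i ∧ x i < v i + N := by
    intro x
    obtain ⟨v, ⟨hv, hvx⟩, huniq⟩ := hL (scl D N x)
    choose z hz using hall v hv
    have hzv : scl D N z = v := by
      ext i
      rw [scl_apply, ← hz i]
      field_simp
    have hx : ∀ i, (x i : ℝ) = N * scl D N x i := by
      intro i
      rw [scl_apply]
      field_simp
    refine ⟨z, ⟨?_, ?_⟩, ?_⟩
    · rw [AddSubgroup.mem_comap, hzv]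
      exact hv
    · intro i
      obtain ⟨h1, h2⟩ := hvx i
      constructor
      · have : (z i : ℝ) ≤ x i := by
          rw [← hz i, hx i]
          exact mul_le_mul_of_nonneg_left h1 hN0.le
        exact_mod_cast this
      · have : (x i : ℝ) < z i + N := by
          rw [← hz i, hx i]
          have := mul_lt_mul_of_pos_left h2 hN0
          rw [mul_add, mul_one] at this
          exact this
        exact_mod_cast this
    · intro z' ⟨hz'1, hz'2⟩
      rw [AddSubgroup.mem_comap] at hz'1
      have hz'v : scl D N z' = v := by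
        refine huniq _ ⟨hz'1, fun i => ?_⟩
        obtain ⟨h1, h2⟩ := hz'2 i
        have h1' : (z' i : ℝ) ≤ x i := by exact_mod_cast h1
        have h2' : (x i : ℝ) < z' i + N := by exact_mod_cast h2
        rw [scl_apply, scl_apply]
        constructor
        · exact div_le_div_of_nonneg_right h1' hN0.le
        · rw [div_add_one hN0.ne']
          exact div_lt_div_of_pos_right h2' hN0
      ext i
      have h3 : (z' i : ℝ) = z i := by
        rw [← hz i, ← hz'v, scl_apply]
        field_simp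
      exact_mod_cast h3
  obtain ⟨k, hk⟩ := hA D N hD hN (L.comap (scl D N)) htile
  refine ⟨k, ?_⟩
  rw [AddSubgroup.mem_comap] at hk
  have e : scl D N (Pi.single k (N : ℤ)) = Pi.single k (1 : ℝ) := by
    ext i
    rw [scl_apply]
    by_cases hi : i = k
    · subst hi
      rw [Pi.single_eq_same, Pi.single_eq_same]
      push_cast
      exact div_self hN0.ne'
    · rw [Pi.single_eq_of_ne hi, Pi.single_eq_of_ne hi]
      simp
  rwa [e] at hk

end H947TP
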